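import Pool.Agent.H59.Loc.Defs

/-!
# Classes effective relative to the halting problem: definition
-/

set_option autoImplicit false

namespace Pool.Agent.H59.Loc

open Pool.Agent.H77.Thin

/-- `C` is a `Π⁰₁` class relative to `0'`: it consists of the points all of whose initial segments
belong to one set of strings computable from `0'`. -/
def IsPi01Jump (C : Set (ℕ → Bool)) : Prop :=
  ∃ v : ℕ → Bool, TuringReducible (chr v) (chr zeroJump) ∧
    C = {z | ∀ n, v (Encodable.encode (seg z n)) = true}

end Pool.Agent.H59.Loc
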