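import Pool.Agent.H59.Loc.Main
import Pool.Agent.H59.Loc.DefsJump

/-!
# Thin degrees and classes effective relative to the halting problem
-/

set_option autoImplicit false

namespace Pool.Agent.H59.Loc

open Pool.Agent.H77.Thin Pool.Agent.H59.Hif Encodable
open Nat.Partrec (Code)

/-- A `Π⁰₁` class is a `Π⁰₁` class relative to `0'`. -/
theorem jump_of_pi01 {P : Set (ℕ → Bool)} (hP : IsPi01 P) : IsPi01Jump P := by
  obtain ⟨c, rfl⟩ := exists_tree hP
  let v : ℕ → Bool := fun n => (((decode n : Option (List Bool)).map (tree c))).getD false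
  have hv : Primrec v := by
    refine Primrec.option_getD.comp (Primrec.option_map Primrec.decode ?_) (Primrec.const false)
    exact (prim_tree c).comp Primrec.snd
  refine ⟨v, ?_, ?_⟩
  · have h1 : Computable fun n : ℕ => (v n).toNat :=
      ((Primrec.dom_finite Bool.toNat).comp hv).to_comp
    have h2 : Partrec (chr v) := h1.partrec
    exact h2.turingReducible
  · ext z
    simp only [Set.mem_ofPred_eq, v, encodek, Option.map_some, Option.getD_some]

/-- A primitive recursive approximation of a `Π⁰₁` class relative to `0'`. -/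
theorem exists_approx {C : Set (ℕ → Bool)} (hC : IsPi01Jump C) :
    ∃ W : List Bool → ℕ → Bool, Primrec₂ W ∧ Conv W ∧ ∀ z, InLim W z ↔ z ∈ C := by
  obtain ⟨v, hv, rfl⟩ := hC
  obtain ⟨G, hG⟩ := exists_primLimit (limit_of_le limit_zeroJump hv)
  refine ⟨fun σ s => G (encode σ) s, ?_, fun σ => ?_, fun z => ?_⟩
  · exact hG.1.comp (Primrec.encode.comp Primrec.fst) Primrec.snd
  · obtain ⟨s₀, hs₀⟩ := hG.2 (encode σ)
    exact ⟨s₀, fun s hs => (hs₀ s hs).trans (hs₀ s₀ le_rfl).symm⟩
  · constructor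
    · intro hz n
      obtain ⟨a, ha⟩ := hz n
      obtain ⟨b, hb⟩ := hG.2 (encode (seg z n))
      rw [← hb (max a b) (le_max_right _ _)]
      exact ha _ (le_max_left _ _)
    · intro hz n
      obtain ⟨b, hb⟩ := hG.2 (encode (seg z n))
      refine ⟨b, fun s hs => ?_⟩
      change G (encode (seg z n)) s = true
      rw [hb s hs]
      exact hz n

/-- A `Π⁰₁` class relative to `0'` of points generic in one `Π⁰₁` class `P` is carried into a thin
class by a degree preserving map of `P`; all other points go to isolated members. -/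
theorem all {P C : Set (ℕ → Bool)} (hP : IsPi01 P) (hC : IsPi01Jump C)
    (hg : ∀ z ∈ C, GenericIn P z) :
    ∃ f : (ℕ → Bool) → (ℕ → Bool), IsThin (f '' P) ∧
      (∀ z ∈ C, TuringEquivalent (chr (f z)) (chr z)) ∧
      ∀ z ∈ P, z ∉ C → ∃ n, ∀ w ∈ f '' P, seg w n = seg (f z) n → w = f z := by
  obtain ⟨W, hW, hc, hl⟩ := exists_approx hC
  refine ⟨pt (fn W), thin_hit hW hc hP fun z _ hz => hg z ((hl z).1 hz),
    fun z hz => equiv_pt hW ((hl z).2 hz), fun z _ hzC => ?_⟩
  obtain ⟨N, hN⟩ := isolated hW hc fun hL => hzC ((hl z).1 hL)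
  refine ⟨N, ?_⟩
  rintro _ ⟨h', _, rfl⟩ hag
  exact hN h' (seg_eq_iff.1 hag)

/-- The degrees of members of thin classes. -/
theorem all_iff (x : ℕ → Bool) :
    (∃ P, IsThin P ∧ ∃ y ∈ P, TuringEquivalent (chr y) (chr x)) ↔
      ∃ P C, IsPi01 P ∧ IsPi01Jump C ∧ (∀ z ∈ C, GenericIn P z) ∧
        ∃ y ∈ C, TuringEquivalent (chr y) (chr x) := by
  constructor
  · rintro ⟨P, hP, y, hy, he⟩
    exact ⟨P, P, hP.1, jump_of_pi01 hP.1, fun z hz => generic_of_thin hP hz, y, hy, he⟩
  · rintro ⟨P, C, hP, hC, hg, y, hy, he⟩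
    obtain ⟨f, hR, hF, -⟩ := all hP hC hg
    exact ⟨f '' P, hR, f y, ⟨y, (hg y hy).1, rfl⟩, (hF y hy).1.trans he.1,
      he.2.trans (hF y hy).2⟩

end Pool.Agent.H59.Loc
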