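import Pool.Agent.H77.Thin.Defs

/-!
# The halting problem and points generic in a class: definitions
-/

set_option autoImplicit false

namespace Pool.Agent.H59.Loc

open Pool.Agent.H77.Thin
open Nat.Partrec (Code)

open Classical in
/-- The halting problem `0'` as a point of Cantor space: `zeroJump n = true` iff the `n`-th partial
computable function is defined at `n`. -/
noncomputable def zeroJump (n : ℕ) : Bool :=
  decide ((Denumerable.ofNat Code n).eval n).Dom

/-- The point `y` is generic in `P`: it is a member of `P` and each `Π⁰₁` class `Q` containing `y`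
contains all members of `P` that agree with `y` up to some `n`. -/
def GenericIn (P : Set (ℕ → Bool)) (y : ℕ → Bool) : Prop :=
  y ∈ P ∧ ∀ Q : Set (ℕ → Bool), IsPi01 Q → y ∈ Q → ∃ n, ∀ z ∈ P, seg z n = seg y n → z ∈ Q

end Pool.Agent.H59.Loc
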