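import Pool.Agent.H59.Hif.Borel

/-!
# The hit functional of an approximated class

`W σ s` approximates the membership of the string `σ` in a tree. On input `h` the functional
records the stages `s` (hits) at which all initial segments of `h` of length at most `r + 1` are
approved, `r` the number of earlier hits, together with the bit `h r`.
-/

set_option autoImplicit false

namespace Pool.Agent.H59.Loc

open Pool.Agent.H77.Thin Pool.Agent.H59.Hif Encodable

variable {W : List Bool → ℕ → Bool}

/-- The test at stage `s` after `r` hits. -/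
def hit (W : List Bool → ℕ → Bool) (ρ : List Bool) (s r : ℕ) : Bool :=
  decide (r + 1 ≤ s) && (List.range (r + 2)).all fun k => W (ρ.take k) s

theorem hit_iff {ρ : List Bool} {s r : ℕ} :
    hit W ρ s r = true ↔ r + 1 ≤ s ∧ ∀ k ≤ r + 1, W (ρ.take k) s = true := by
  simp only [hit, Bool.and_eq_true, decide_eq_true_eq, List.all_eq_true, List.mem_range]
  refine and_congr Iff.rfl (forall_congr' fun k => ?_)
  exact ⟨fun h hk => h (by omega), fun h hk => h (by omega)⟩

theorem hit_pre {σ τ : List Bool} (h : σ <+: τ) {s r : ℕ} (hs : s ≤ σ.length) :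
    hit W σ s r = hit W τ s r := by
  rw [Bool.eq_iff_iff, hit_iff, hit_iff]
  refine and_congr_right fun hr => forall_congr' fun k => ?_
  refine forall_congr' fun hk => ?_
  rw [show τ.take k = σ.take k by
    rw [List.prefix_iff_eq_take] at h
    rw [h, List.take_take, min_eq_left (by omega)]]

/-- The number of hits before stage `s`. -/
def cnt (W : List Bool → ℕ → Bool) (ρ : List Bool) (s : ℕ) : ℕ :=
  Nat.rec (motive := fun _ => ℕ) 0 (fun s r => bif hit W ρ s r then r + 1 else r) s

theorem cnt_zero (ρ : List Bool) : cnt W ρ 0 = 0 := rfl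

theorem cnt_succ (ρ : List Bool) (s : ℕ) :
    cnt W ρ (s + 1) = bif hit W ρ s (cnt W ρ s) then cnt W ρ s + 1 else cnt W ρ s := rfl

theorem cnt_pre {σ τ : List Bool} (h : σ <+: τ) {s : ℕ} (hs : s ≤ σ.length + 1) :
    cnt W σ s = cnt W τ s := by
  induction s with
  | zero => rfl
  | succ s ih => rw [cnt_succ, cnt_succ, ← ih (by omega), hit_pre h (by omega)]

/-- The hit functional. -/
def fn (W : List Bool → ℕ → Bool) (ρ : List Bool) (n : ℕ) : Option ℕ :=
  bif decide (n / 2 < ρ.length) then
    some (bif decide (n % 2 = 0) then (hit W ρ (n / 2) (cnt W ρ (n / 2))).toNat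
      else (hit W ρ (n / 2) (cnt W ρ (n / 2)) && (ρ[cnt W ρ (n / 2)]?).getD false).toNat)
  else none

theorem prim_hit (hW : Primrec₂ W) :
    Primrec fun a : List Bool × ℕ × ℕ => hit W a.1 a.2.1 a.2.2 := by
  unfold hit
  refine Primrec.and.comp (PrimrecPred.decide (Primrec.nat_le.comp
    (Primrec.succ.comp (Primrec.snd.comp Primrec.snd)) (Primrec.fst.comp Primrec.snd))) ?_
  refine prim_all (Primrec.list_range.comp (Primrec.succ.comp (Primrec.succ.comp
    (Primrec.snd.comp Primrec.snd)))) ?_
  exact hW.comp (prim_take Primrec.snd (Primrec.fst.comp Primrec.fst))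
    (Primrec.fst.comp (Primrec.snd.comp Primrec.fst))

theorem prim_cnt (hW : Primrec₂ W) : Primrec₂ (cnt W) := by
  refine Primrec.nat_rec (f := fun _ : List Bool => 0)
    (g := fun (ρ : List Bool) (a : ℕ × ℕ) => bif hit W ρ a.1 a.2 then a.2 + 1 else a.2)
    (Primrec.const 0) ?_
  refine Primrec.cond ((prim_hit hW).comp (Primrec.pair Primrec.fst (Primrec.pair
    (Primrec.fst.comp Primrec.snd) (Primrec.snd.comp Primrec.snd)))) ?_
    (Primrec.snd.comp Primrec.snd)
  exact Primrec.succ.comp (Primrec.snd.comp Primrec.snd)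

theorem isFun_fn (hW : Primrec₂ W) : IsFun (fn W) := by
  constructor
  · have hs : Primrec fun a : List Bool × ℕ => a.2 / 2 :=
      Primrec.nat_div.comp Primrec.snd (Primrec.const 2)
    have hc : Primrec fun a : List Bool × ℕ => cnt W a.1 (a.2 / 2) :=
      (prim_cnt hW).comp Primrec.fst hs
    have hh : Primrec fun a : List Bool × ℕ => hit W a.1 (a.2 / 2) (cnt W a.1 (a.2 / 2)) :=
      (prim_hit hW).comp (Primrec.pair Primrec.fst (Primrec.pair hs hc))
    have hn : Primrec Bool.toNat := Primrec.dom_finite _
    refine Primrec.cond (PrimrecPred.decide (Primrec.nat_lt.comp hs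
      (Primrec.list_length.comp Primrec.fst))) (Primrec.option_some.comp ?_) (Primrec.const none)
    refine Primrec.cond (PrimrecPred.decide (Primrec.eq.comp
      (Primrec.nat_mod.comp Primrec.snd (Primrec.const 2)) (Primrec.const 0)))
      (hn.comp hh) (hn.comp (Primrec.and.comp hh ?_))
    exact Primrec.option_getD.comp (Primrec.list_getElem?.comp Primrec.fst hc)
      (Primrec.const false)
  · intro σ τ n m h hm
    unfold fn at hm ⊢
    by_cases hn : n / 2 < σ.length
    · have hn' : n / 2 < τ.length := lt_of_lt_of_le hn h.length_le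
      rw [decide_eq_true hn] at hm
      rw [decide_eq_true hn', ← cnt_pre h (by omega), ← hit_pre h (by omega)]
      rw [← hm]
      simp only [cond_true]
      cases hb : hit W σ (n / 2) (cnt W σ (n / 2)) with
      | false => rfl
      | true =>
        have hr := (hit_iff.1 hb).1
        rw [show τ[cnt W σ (n / 2)]? = σ[cnt W σ (n / 2)]? by
          rw [List.prefix_iff_eq_take] at h
          rw [h, List.getElem?_take_of_lt (by rw [← h]; omega)]]
    · rw [decide_eq_false hn] at hm
      simp at hm

/-- The number of hits of `h` before stage `s`. -/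
def num (W : List Bool → ℕ → Bool) (h : ℕ → Bool) (s : ℕ) : ℕ := cnt W (seg h s) s

/-- Stage `s` is a hit for `h`. -/
def isHit (W : List Bool → ℕ → Bool) (h : ℕ → Bool) (s : ℕ) : Bool :=
  hit W (seg h s) s (num W h s)

theorem num_zero (h : ℕ → Bool) : num W h 0 = 0 := rfl

theorem num_succ (h : ℕ → Bool) (s : ℕ) :
    num W h (s + 1) = if isHit W h s = true then num W h s + 1 else num W h s := by
  have h1 : cnt W (seg h s) s = cnt W (seg h (s + 1)) s :=
    cnt_pre (seg_prefix h (Nat.le_succ s)) (by rw [seg_length]; omega)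
  have h2 : hit W (seg h s) s (num W h s) = hit W (seg h (s + 1)) s (num W h s) :=
    hit_pre (seg_prefix h (Nat.le_succ s)) (by rw [seg_length])
  unfold num isHit
  rw [cnt_succ, ← h1]
  change (bif hit W (seg h (s + 1)) s (num W h s) then _ else _) = _
  rw [← h2]
  unfold num
  cases hit W (seg h s) s (cnt W (seg h s) s) <;> rfl

theorem isHit_iff {h : ℕ → Bool} {s : ℕ} : isHit W h s = true ↔
    num W h s + 1 ≤ s ∧ ∀ k ≤ num W h s + 1, W (seg h k) s = true := by
  unfold isHit
  rw [hit_iff]
  refine and_congr_right fun hr => forall_congr' fun k => forall_congr' fun hk => ?_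
  rw [seg_take h (by omega)]

theorem num_mono {h : ℕ → Bool} {s t : ℕ} (hst : s ≤ t) : num W h s ≤ num W h t := by
  induction t, hst using Nat.le_induction with
  | base => exact le_rfl
  | succ t _ ih =>
    rw [num_succ]
    split <;> omega

theorem fn_even (h : ℕ → Bool) (s : ℕ) :
    fn W (seg h (s + 1)) (2 * s) = some (isHit W h s).toNat := by
  have h1 : cnt W (seg h s) s = cnt W (seg h (s + 1)) s :=
    cnt_pre (seg_prefix h (Nat.le_succ s)) (by rw [seg_length]; omega)
  have h2 : hit W (seg h s) s (num W h s) = hit W (seg h (s + 1)) s (num W h s) :=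
    hit_pre (seg_prefix h (Nat.le_succ s)) (by rw [seg_length])
  unfold fn
  rw [show 2 * s / 2 = s by omega, show 2 * s % 2 = 0 by omega, seg_length, ← h1,
    decide_eq_true (Nat.lt_succ_self s)]
  unfold isHit
  rw [h2]
  rfl

theorem fn_odd (h : ℕ → Bool) (s : ℕ) :
    fn W (seg h (s + 1)) (2 * s + 1) = some (isHit W h s && h (num W h s)).toNat := by
  have h1 : cnt W (seg h s) s = cnt W (seg h (s + 1)) s :=
    cnt_pre (seg_prefix h (Nat.le_succ s)) (by rw [seg_length]; omega)
  have h2 : hit W (seg h s) s (num W h s) = hit W (seg h (s + 1)) s (num W h s) :=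
    hit_pre (seg_prefix h (Nat.le_succ s)) (by rw [seg_length])
  unfold fn
  rw [show (2 * s + 1) / 2 = s by omega, show (2 * s + 1) % 2 = 1 by omega, seg_length, ← h1,
    decide_eq_true (Nat.lt_succ_self s)]
  change some (hit W (seg h (s + 1)) s (num W h s) && _).toNat = _
  rw [← h2]
  change some (isHit W h s && ((seg h (s + 1))[num W h s]?).getD false).toNat = _
  cases hb : isHit W h s with
  | false => rfl
  | true =>
    have := (isHit_iff.1 hb).1
    rw [seg_getElem? h (by omega)]
    rfl

theorem total_fn (P : Set (ℕ → Bool)) : Total (fn W) P := by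
  intro z _ n
  refine ⟨n / 2 + 1, ?_⟩
  rcases Nat.mod_two_eq_zero_or_one n with h | h
  · have := fn_even (W := W) z (n / 2)
    rw [show 2 * (n / 2) = n by omega] at this
    rw [this]; rfl
  · have := fn_odd (W := W) z (n / 2)
    rw [show 2 * (n / 2) + 1 = n by omega] at this
    rw [this]; rfl

theorem pt_even (hW : Primrec₂ W) (h : ℕ → Bool) (s : ℕ) :
    pt (fn W) h (2 * s) = isHit W h s := by
  unfold pt
  rw [out_eq (isFun_fn hW) (fn_even h s)]
  cases isHit W h s <;> rfl

theorem pt_odd (hW : Primrec₂ W) (h : ℕ → Bool) (s : ℕ) :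
    pt (fn W) h (2 * s + 1) = (isHit W h s && h (num W h s)) := by
  unfold pt
  rw [out_eq (isFun_fn hW) (fn_odd h s)]
  cases isHit W h s && h (num W h s) <;> rfl

/-- Agreement of the images up to stage `N`. -/
theorem agree (hW : Primrec₂ W) {h h' : ℕ → Bool} {N : ℕ}
    (hag : ∀ n < 2 * N, pt (fn W) h' n = pt (fn W) h n) :
    (∀ s < N, isHit W h' s = isHit W h s) ∧ (∀ s ≤ N, num W h' s = num W h s) ∧
      ∀ r < num W h N, h' r = h r := by
  have h1 : ∀ s < N, isHit W h' s = isHit W h s := fun s hs => by
    rw [← pt_even hW, ← pt_even hW]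
    exact hag _ (by omega)
  have h2 : ∀ s ≤ N, num W h' s = num W h s := by
    intro s
    induction s with
    | zero => exact fun _ => rfl
    | succ s ih =>
      intro hs
      rw [num_succ, num_succ, h1 s (by omega), ih (by omega)]
  refine ⟨h1, h2, ?_⟩
  have h3 : ∀ s ≤ N, ∀ r < num W h s, h' r = h r := by
    intro s
    induction s with
    | zero => exact fun _ r hr => absurd hr (by rw [num_zero]; omega)
    | succ s ih =>
      intro hs r hr
      rw [num_succ] at hr
      split at hr
      · rename_i hb
        rcases Nat.lt_succ_iff_lt_or_eq.1 hr with h4 | h4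
        · exact ih (by omega) r h4
        · have h5 := hag (2 * s + 1) (by omega)
          rw [pt_odd hW, pt_odd hW, h1 s (by omega), hb, h2 s (by omega)] at h5
          simpa [h4] using h5
      · exact ih (by omega) r hr
  exact h3 N le_rfl

end Pool.Agent.H59.Loc
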