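import Pool.Agent.H59.Loc.Hit

/-!
# Points with finitely and with infinitely many hits
-/

set_option autoImplicit false

namespace Pool.Agent.H59.Loc

open Pool.Agent.H77.Thin Pool.Agent.H59.Hif Encodable

variable {W : List Bool → ℕ → Bool}

/-- The approximation converges on each string. -/
def Conv (W : List Bool → ℕ → Bool) : Prop := ∀ σ, ∃ s₀, ∀ s, s₀ ≤ s → W σ s = W σ s₀

/-- All initial segments of `h` are approved in the limit. -/
def InLim (W : List Bool → ℕ → Bool) (h : ℕ → Bool) : Prop :=
  ∀ k, ∃ s₀, ∀ s, s₀ ≤ s → W (seg h k) s = true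

theorem exists_common {h : ℕ → Bool} (hh : InLim W h) (r : ℕ) :
    ∃ s₀, ∀ s, s₀ ≤ s → ∀ k < r, W (seg h k) s = true := by
  induction r with
  | zero => exact ⟨0, fun s _ k hk => absurd hk (by omega)⟩
  | succ r ih =>
    obtain ⟨a, ha⟩ := ih
    obtain ⟨b, hb⟩ := hh r
    refine ⟨max a b, fun s hs k hk => ?_⟩
    rcases Nat.lt_succ_iff_lt_or_eq.1 hk with h1 | h1
    · exact ha s (by omega) k h1
    · rw [h1]; exact hb s (by omega)

/-- A point in the limit has arbitrarily many hits. -/
theorem exists_num {h : ℕ → Bool} (hh : InLim W h) (R : ℕ) : ∃ N, R ≤ num W h N := by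
  induction R with
  | zero => exact ⟨0, Nat.zero_le _⟩
  | succ R ih =>
    obtain ⟨N, hN⟩ := ih
    by_contra hcon
    push Not at hcon
    obtain ⟨s₀, hs₀⟩ := exists_common hh (R + 2)
    have h1 : ∀ s, N ≤ s → num W h s = R := fun s hs => by
      have h2 := num_mono (W := W) (h := h) hs
      have h3 := hcon s
      omega
    have h4 : isHit W h (max (max N s₀) (R + 1)) = true := by
      rw [isHit_iff, h1 _ (by omega)]
      exact ⟨by omega, fun k hk => hs₀ _ (by omega) k (by omega)⟩
    have h5 := num_succ (W := W) h (max (max N s₀) (R + 1))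
    rw [if_pos h4, h1 _ (by omega), h1 _ (by omega)] at h5
    omega

/-- A point outside the limit has boundedly many hits. -/
theorem exists_bound_num (hc : Conv W) {h : ℕ → Bool} (hh : ¬ InLim W h) :
    ∃ R, ∀ s, num W h s ≤ R := by
  unfold InLim at hh
  push Not at hh
  obtain ⟨k, hk⟩ := hh
  obtain ⟨s₀, hs₀⟩ := hc (seg h k)
  have hf : ∀ s, s₀ ≤ s → W (seg h k) s ≠ true := by
    intro s hs hcon
    obtain ⟨t, ht, ht'⟩ := hk s₀
    refine ht' ?_
    rw [hs₀ t ht, ← hs₀ s hs]
    exact hcon
  refine ⟨max s₀ k, fun s => ?_⟩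
  induction s with
  | zero => exact Nat.zero_le _
  | succ s ih =>
    rw [num_succ]
    split
    · rename_i hb
      rw [isHit_iff] at hb
      by_cases hs : s₀ ≤ s
      · have h1 : ¬ k ≤ num W h s + 1 := fun hle => hf s hs (hb.2 k hle)
        omega
      · omega
    · exact ih

/-- From some stage on there are no more hits. -/
theorem exists_last (hc : Conv W) {h : ℕ → Bool} (hh : ¬ InLim W h) :
    ∃ N r, ∀ s, N ≤ s → num W h s = r ∧ isHit W h s = false := by
  obtain ⟨R, hR⟩ := exists_bound_num hc hh
  obtain ⟨N, hN⟩ : ∃ N, ∀ s, N ≤ s → num W h s = num W h N := by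
    by_contra hcon
    push Not at hcon
    have h1 : ∀ m, ∃ N, m ≤ num W h N := by
      intro m
      induction m with
      | zero => exact ⟨0, Nat.zero_le _⟩
      | succ m ih =>
        obtain ⟨N, hN⟩ := ih
        obtain ⟨s, hs, hs'⟩ := hcon N
        have := num_mono (W := W) (h := h) hs
        exact ⟨s, by omega⟩
    obtain ⟨N, hN⟩ := h1 (R + 1)
    have := hR N
    omega
  refine ⟨N, num W h N, fun s hs => ⟨hN s hs, ?_⟩⟩
  cases hb : isHit W h s with
  | false => rfl
  | true =>
    have h1 := num_succ (W := W) h s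
    rw [if_pos hb, hN s hs, hN (s + 1) (by omega)] at h1
    omega

theorem exists_stage_list (hc : Conv W) (L : List (List Bool)) :
    ∃ M, ∀ σ ∈ L, ∀ s, M ≤ s → W σ s = W σ M := by
  induction L with
  | nil => exact ⟨0, fun σ hσ => absurd hσ (by simp)⟩
  | cons τ L ih =>
    obtain ⟨a, ha⟩ := ih
    obtain ⟨b, hb⟩ := hc τ
    refine ⟨max a b, fun σ hσ s hs => ?_⟩
    rcases List.mem_cons.1 hσ with rfl | h1
    · rw [hb s (by omega), hb (max a b) (by omega)]
    · rw [ha σ h1 s (by omega), ha σ h1 (max a b) (by omega)]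

/-- The image of a point outside the limit is isolated among the images. -/
theorem isolated (hW : Primrec₂ W) (hc : Conv W) {h : ℕ → Bool} (hh : ¬ InLim W h) :
    ∃ N, ∀ h' : ℕ → Bool, (∀ n < N, pt (fn W) h' n = pt (fn W) h n) →
      pt (fn W) h' = pt (fn W) h := by
  obtain ⟨N₀, r, hN₀⟩ := exists_last hc hh
  obtain ⟨M₀, hM₀⟩ := exists_stage_list hc ((List.range (r + 2)).flatMap strs)
  set M := max (max N₀ M₀) (r + 1) with hM
  refine ⟨2 * (M + 1), fun h' hag => ?_⟩
  obtain ⟨h1, h2, -⟩ := agree hW hag
  have hst : ∀ k ≤ r + 1, ∀ s, M ≤ s → W (seg h' k) s = W (seg h' k) M := by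
    intro k hk s hs
    have hmem : seg h' k ∈ (List.range (r + 2)).flatMap strs := by
      rw [List.mem_flatMap]
      exact ⟨k, List.mem_range.2 (by omega), mem_strs.2 (seg_length h' k)⟩
    rw [hM₀ _ hmem s (by omega), hM₀ _ hmem M (by omega)]
  have hMf : isHit W h' M = false := by
    rw [h1 M (by omega)]
    exact (hN₀ M (by omega)).2
  have hMn : num W h' M = r := by
    rw [h2 M (by omega)]
    exact (hN₀ M (by omega)).1
  have h3 : ∀ s, M ≤ s → num W h' s = r := by
    intro s hs
    induction s, hs using Nat.le_induction with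
    | base => exact hMn
    | succ s hs ih =>
      rw [num_succ]
      split
      · rename_i hb
        exfalso
        rw [isHit_iff, ih] at hb
        have h4 : isHit W h' M = true := by
          rw [isHit_iff, hMn]
          refine ⟨by omega, fun k hk => ?_⟩
          rw [← hst k hk s hs]
          exact hb.2 k hk
        rw [hMf] at h4
        exact absurd h4 (by simp)
      · exact ih
  have h4 : ∀ s, M ≤ s → isHit W h' s = false := by
    intro s hs
    cases hb : isHit W h' s with
    | false => rfl
    | true =>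
      have h5 := num_succ (W := W) h' s
      rw [if_pos hb, h3 s hs, h3 (s + 1) (by omega)] at h5
      omega
  funext n
  by_cases hn : n < 2 * (M + 1)
  · exact hag n hn
  · rcases Nat.mod_two_eq_zero_or_one n with h | h
    · rw [show n = 2 * (n / 2) by omega, pt_even hW, pt_even hW, h4 _ (by omega),
        (hN₀ (n / 2) (by omega)).2]
    · rw [show n = 2 * (n / 2) + 1 by omega, pt_odd hW, pt_odd hW, h4 _ (by omega),
        (hN₀ (n / 2) (by omega)).2]
      rfl

/-- The images near the image of a point in the limit come from points near it. -/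
theorem near (hW : Primrec₂ W) {h : ℕ → Bool} (hh : InLim W h) (n : ℕ) :
    ∃ N, ∀ h' : ℕ → Bool, (∀ i < N, pt (fn W) h' i = pt (fn W) h i) → seg h' n = seg h n := by
  obtain ⟨N, hN⟩ := exists_num hh n
  refine ⟨2 * N, fun h' hag => ?_⟩
  obtain ⟨-, -, h3⟩ := agree hW hag
  refine List.map_congr_left fun i hi => ?_
  rw [List.mem_range] at hi
  exact h3 i (by omega)

/-- The inverse functional: the list of recorded bits. -/
def bk (ρ : List Bool) : List Bool :=
  (List.range (ρ.length / 2)).filterMap fun s =>
    bif decide (ρ[2 * s]? = some true) then ρ[2 * s + 1]? else none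

def inv (ρ : List Bool) (n : ℕ) : Option ℕ := ((bk ρ)[n]?).map Bool.toNat

theorem prim_bk : Primrec bk := by
  unfold bk
  refine Primrec.listFilterMap (Primrec.list_range.comp (Primrec.nat_div.comp
    Primrec.list_length (Primrec.const 2))) ?_
  have h2 : Primrec fun a : List Bool × ℕ => 2 * a.2 :=
    Primrec.nat_mul.comp (Primrec.const 2) Primrec.snd
  refine Primrec.cond (prim_beq (Primrec.list_getElem?.comp Primrec.fst h2)
    (Primrec.const (some true))) (Primrec.list_getElem?.comp Primrec.fst (Primrec.succ.comp h2))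
    (Primrec.const none)

theorem bk_prefix {σ τ : List Bool} (h : σ <+: τ) : bk σ <+: bk τ := by
  have hle := h.length_le
  have h1 : bk σ = (List.range (σ.length / 2)).filterMap fun s =>
      bif decide (τ[2 * s]? = some true) then τ[2 * s + 1]? else none := by
    unfold bk
    refine List.filterMap_congr fun s hs => ?_
    rw [List.mem_range] at hs
    have h2 : ∀ i < σ.length, σ[i]? = τ[i]? := by
      intro i hi
      rw [List.prefix_iff_eq_take] at h
      rw [h, List.getElem?_take_of_lt hi]
    rw [h2 _ (by omega), h2 _ (by omega)]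
  rw [h1]
  unfold bk
  have h3 : List.range (σ.length / 2) <+: List.range (τ.length / 2) := by
    obtain ⟨d, hd⟩ : ∃ d, τ.length / 2 = σ.length / 2 + d :=
      Nat.exists_eq_add_of_le (Nat.div_le_div_right hle)
    rw [hd, List.range_add]
    exact List.prefix_append _ _
  exact h3.filterMap _

theorem isFun_inv : IsFun inv := by
  constructor
  · exact Primrec.option_map (Primrec.list_getElem?.comp (prim_bk.comp Primrec.fst) Primrec.snd)
      ((Primrec.dom_finite Bool.toNat).comp₂ Primrec₂.right)
  · intro σ τ n m h hm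
    unfold inv at hm ⊢
    rw [Option.map_eq_some_iff] at hm ⊢
    obtain ⟨b, hb, hb'⟩ := hm
    refine ⟨b, ?_, hb'⟩
    have h1 := bk_prefix h
    obtain ⟨t, ht⟩ := h1
    rw [← ht]
    rw [List.getElem?_append_left]
    · exact hb
    · exact (List.getElem?_eq_some_iff.1 hb).1

theorem bk_pt (hW : Primrec₂ W) (h : ℕ → Bool) (N : ℕ) :
    bk (seg (pt (fn W) h) (2 * N)) = seg h (num W h N) := by
  have h0 : bk (seg (pt (fn W) h) (2 * N)) = (List.range N).filterMap fun s =>
      bif isHit W h s then some (h (num W h s)) else none := by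
    unfold bk
    rw [seg_length, show 2 * N / 2 = N by omega]
    refine List.filterMap_congr fun s hs => ?_
    rw [List.mem_range] at hs
    rw [seg_getElem? _ (by omega), seg_getElem? _ (by omega), pt_even hW, pt_odd hW]
    cases isHit W h s <;> rfl
  rw [h0]
  induction N with
  | zero => rfl
  | succ N ih =>
    have h1 : bk (seg (pt (fn W) h) (2 * N)) = (List.range N).filterMap fun s =>
        bif isHit W h s then some (h (num W h s)) else none := by
      unfold bk
      rw [seg_length, show 2 * N / 2 = N by omega]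
      refine List.filterMap_congr fun s hs => ?_
      rw [List.mem_range] at hs
      rw [seg_getElem? _ (by omega), seg_getElem? _ (by omega), pt_even hW, pt_odd hW]
      cases isHit W h s <;> rfl
    rw [List.range_succ, List.filterMap_append, ih h1, num_succ]
    cases hb : isHit W h N with
    | false => simp [hb]
    | true =>
      rw [if_pos rfl, seg_succ]
      simp [hb]

/-- A point in the limit is computable from its image. -/
theorem computes_inv (hW : Primrec₂ W) {h : ℕ → Bool} (hh : InLim W h) :
    Computes inv (pt (fn W) h) fun n => (h n).toNat := by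
  intro n
  obtain ⟨N, hN⟩ := exists_num hh (n + 1)
  refine ⟨2 * N, ?_⟩
  unfold inv
  rw [bk_pt hW, seg_getElem? h (by omega)]
  rfl

/-- The image is computable from the point. -/
theorem computes_fn (hW : Primrec₂ W) (h : ℕ → Bool) :
    Computes (fn W) h fun n => (pt (fn W) h n).toNat := by
  intro n
  refine ⟨n / 2 + 1, ?_⟩
  rcases Nat.mod_two_eq_zero_or_one n with h1 | h1
  · have h2 := fn_even (W := W) h (n / 2)
    have h3 := pt_even hW h (n / 2)
    rw [show 2 * (n / 2) = n by omega] at h2 h3
    change _ = some (pt (fn W) h n).toNat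
    rw [h2, h3]
  · have h2 := fn_odd (W := W) h (n / 2)
    have h3 := pt_odd hW h (n / 2)
    rw [show 2 * (n / 2) + 1 = n by omega] at h2 h3
    change _ = some (pt (fn W) h n).toNat
    rw [h2, h3]

theorem equiv_pt (hW : Primrec₂ W) {h : ℕ → Bool} (hh : InLim W h) :
    TuringEquivalent (chr (pt (fn W) h)) (chr h) :=
  ⟨(computes_trec (isFun_fn hW) (computes_fn hW h)).turing,
    (computes_trec isFun_inv (computes_inv hW hh)).turing⟩

end Pool.Agent.H59.Loc
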