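import Pool.Agent.H59.Loc.Iso
import Pool.Agent.H59.Loc.Defs

/-!
# Limit computable points
-/

set_option autoImplicit false

namespace Pool.Agent.H59.Loc

open Pool.Agent.H77.Thin Pool.Agent.H59.Hif Encodable
open Nat.Partrec (Code)

/-- The point `x` of Cantor space is limit computable: some computable `g` has
`lim_s g n s = x n` for all `n`. -/
def LimitComputable (x : ℕ → Bool) : Prop :=
  ∃ g : ℕ → ℕ → Bool, Computable₂ g ∧ ∀ n, ∃ s₀, ∀ s, s₀ ≤ s → g n s = x n

theorem zeroJump_iff {n : ℕ} :
    zeroJump n = true ↔ ((Denumerable.ofNat Code n).eval n).Dom := by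
  simp only [zeroJump, decide_eq_true_eq]

/-- The halting problem is limit computable. -/
theorem limit_zeroJump : LimitComputable zeroJump := by
  refine ⟨fun n s => (Code.evaln s (Denumerable.ofNat Code n) n).isSome, ?_, fun n => ?_⟩
  · refine Primrec₂.to_comp ?_
    exact Primrec.option_isSome.comp (Code.primrec_evaln.comp (Primrec.pair (Primrec.pair
      Primrec.snd ((Primrec.ofNat Code).comp Primrec.fst)) Primrec.fst))
  · by_cases h : ((Denumerable.ofNat Code n).eval n).Dom
    · obtain ⟨m, hm⟩ := Part.dom_iff_mem.1 h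
      obtain ⟨k, hk⟩ := Code.evaln_complete.1 hm
      refine ⟨k, fun s hs => ?_⟩
      have h1 := Option.mem_def.1 (Code.evaln_mono hs hk)
      change (Code.evaln s (Denumerable.ofNat Code n) n).isSome = _
      rw [h1, zeroJump_iff.2 h]
      rfl
    · refine ⟨0, fun s _ => ?_⟩
      rw [Bool.eq_false_iff.2 fun hz => h (zeroJump_iff.1 hz)]
      change (Code.evaln s (Denumerable.ofNat Code n) n).isSome = false
      cases he : Code.evaln s (Denumerable.ofNat Code n) n with
      | none => rfl
      | some m => exact absurd (Part.dom_iff_mem.2 ⟨m, Code.evaln_sound (Option.mem_def.2 he)⟩) h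

/-- A primitive recursive approximation. -/
def PrimLimit (G : ℕ → ℕ → Bool) (x : ℕ → Bool) : Prop :=
  Primrec₂ G ∧ ∀ n, ∃ s₀, ∀ s, s₀ ≤ s → G n s = x n

theorem exists_primLimit {x : ℕ → Bool} (hx : LimitComputable x) :
    ∃ G, PrimLimit G x := by
  obtain ⟨g, hg, hlim⟩ := hx
  have h1 : Computable fun m : ℕ => (g m.unpair.1 m.unpair.2).toNat :=
    (Primrec.dom_finite Bool.toNat).to_comp.comp (hg.comp
      (Primrec.fst.comp Primrec.unpair).to_comp (Primrec.snd.comp Primrec.unpair).to_comp)
  obtain ⟨c, hc⟩ := Code.exists_code.1 (Partrec.nat_iff.1 h1.partrec)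
  have hc' : ∀ n t, c.eval (Nat.pair n t) = Part.some (g n t).toNat := by
    intro n t
    rw [hc]
    simp
  let G : ℕ → ℕ → Bool := fun n s => decide (((List.range (s + 1)).filterMap fun j =>
    Code.evaln s c (Nat.pair n (s - j))).head? = some 1)
  refine ⟨G, ?_, fun n => ?_⟩
  · have h2 : Primrec₂ fun (a : ℕ × ℕ) (j : ℕ) => Code.evaln a.2 c (Nat.pair a.1 (a.2 - j)) := by
      refine Code.primrec_evaln.comp (Primrec.pair (Primrec.pair
        (Primrec.snd.comp Primrec.fst) (Primrec.const c)) ?_)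
      exact Primrec₂.natPair.comp (Primrec.fst.comp Primrec.fst)
        (Primrec.nat_sub.comp (Primrec.snd.comp Primrec.fst) Primrec.snd)
    exact prim_beq (Primrec.list_head?.comp (Primrec.listFilterMap (Primrec.list_range.comp
      (Primrec.succ.comp Primrec.snd)) h2)) (Primrec.const (some 1))
  · obtain ⟨s₀, hs₀⟩ := hlim n
    obtain ⟨k, hk⟩ := Code.evaln_complete.1
      (show (g n s₀).toNat ∈ c.eval (Nat.pair n s₀) by rw [hc']; exact Part.mem_some _)
    refine ⟨max k s₀, fun s hs => ?_⟩
    obtain ⟨q, hq, b, hb, hb'⟩ := head_filterMap_range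
      (fun j => Code.evaln s c (Nat.pair n (s - j))) (s + 1) (q₀ := s - s₀) (a := (g n s₀).toNat)
      (by omega) (by
        rw [show s - (s - s₀) = s₀ by omega]
        exact Option.mem_def.1 (Code.evaln_mono (by omega) hk))
    have h3 : b ∈ c.eval (Nat.pair n (s - q)) := Code.evaln_sound (Option.mem_def.2 hb)
    rw [hc', Part.mem_some_iff, hs₀ (s - q) (by omega)] at h3
    change decide (_ = some 1) = x n
    rw [hb', h3]
    cases x n <;> rfl

theorem PrimLimit.word {G : ℕ → ℕ → Bool} {x : ℕ → Bool} (h : PrimLimit G x) (k : ℕ) :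
    ∃ s₀, ∀ s, s₀ ≤ s → ∀ m ≤ k, ((List.range m).map fun n => G n s) = seg x m := by
  have h1 : ∀ k, ∃ s₀, ∀ s, s₀ ≤ s → ∀ n < k, G n s = x n := by
    intro k
    induction k with
    | zero => exact ⟨0, fun s _ n hn => absurd hn (by omega)⟩
    | succ k ih =>
      obtain ⟨a, ha⟩ := ih
      obtain ⟨b, hb⟩ := h.2 k
      refine ⟨max a b, fun s hs n hn => ?_⟩
      rcases Nat.lt_succ_iff_lt_or_eq.1 hn with h1 | h1
      · exact ha s (by omega) n h1
      · rw [h1]; exact hb s (by omega)
  obtain ⟨s₀, hs₀⟩ := h1 k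
  refine ⟨s₀, fun s hs m hm => ?_⟩
  refine List.map_congr_left fun n hn => ?_
  rw [List.mem_range] at hn
  exact hs₀ s hs n (by omega)

/-- Points computable from limit computable points are limit computable. -/
theorem limit_of_le {x y : ℕ → Bool} (hx : LimitComputable x)
    (h : TuringReducible (chr y) (chr x)) : LimitComputable y := by
  obtain ⟨G, hG⟩ := exists_primLimit hx
  obtain ⟨c, hv, hcomp⟩ := exists_val (y := x) (f := fun n => (y n).toNat) h
  have hw : Primrec fun a : (ℕ × ℕ) × ℕ => (List.range a.2).map fun n => G n a.1.2 :=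
    Primrec.list_map (Primrec.list_range.comp Primrec.snd)
      (hG.1.comp Primrec.snd (Primrec.snd.comp (Primrec.fst.comp Primrec.fst)))
  let g : ℕ → ℕ → Bool := fun n s => decide (((List.range (s + 1)).filterMap fun m =>
    val c ((List.range m).map fun i => G i s) n).head? = some 1)
  refine ⟨g, ?_, fun n => ?_⟩
  · refine Primrec₂.to_comp ?_
    exact prim_beq (Primrec.list_head?.comp (Primrec.listFilterMap (Primrec.list_range.comp
      (Primrec.succ.comp Primrec.snd)) (hv.prim.comp hw (Primrec.fst.comp Primrec.fst))))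
      (Primrec.const (some 1))
  · obtain ⟨m₀, hm₀⟩ := hcomp n
    obtain ⟨s₀, hs₀⟩ := hG.word m₀
    refine ⟨max m₀ s₀, fun s hs => ?_⟩
    obtain ⟨q, hq, b, hb, hb'⟩ := head_filterMap_range
      (fun m => val c ((List.range m).map fun i => G i s) n) (s + 1) (q₀ := m₀)
      (a := (y n).toNat) (by omega) (by
        rw [hs₀ s (by omega) m₀ le_rfl]
        exact hm₀)
    change val c ((List.range q).map fun i => G i s) n = some b at hb
    rw [hs₀ s (by omega) q hq] at hb
    have h3 := hv.mono (seg_prefix x hq) hb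
    rw [hm₀] at h3
    change some (y n).toNat = some b at h3
    change decide (_ = some 1) = y n
    rw [hb', ← h3]
    cases y n <;> rfl

/-- The approximation of the tree of initial segments of a limit computable point. -/
def aw (G : ℕ → ℕ → Bool) (σ : List Bool) (s : ℕ) : Bool :=
  decide (σ = (List.range σ.length).map fun n => G n s)

theorem prim_aw {G : ℕ → ℕ → Bool} (hG : Primrec₂ G) : Primrec₂ (aw G) := by
  refine prim_beq Primrec.fst ?_
  exact Primrec.list_map (Primrec.list_range.comp (Primrec.list_length.comp Primrec.fst))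
    (hG.comp Primrec.snd (Primrec.snd.comp Primrec.fst))

theorem aw_lim {G : ℕ → ℕ → Bool} {x : ℕ → Bool} (h : PrimLimit G x) (σ : List Bool) :
    ∃ s₀, ∀ s, s₀ ≤ s → aw G σ s = decide (σ = seg x σ.length) := by
  obtain ⟨s₀, hs₀⟩ := h.word σ.length
  refine ⟨s₀, fun s hs => ?_⟩
  unfold aw
  rw [hs₀ s hs _ le_rfl]

theorem conv_aw {G : ℕ → ℕ → Bool} {x : ℕ → Bool} (h : PrimLimit G x) : Conv (aw G) := by
  intro σ
  obtain ⟨s₀, hs₀⟩ := aw_lim h σ
  exact ⟨s₀, fun s hs => by rw [hs₀ s hs, hs₀ s₀ le_rfl]⟩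

theorem inLim_aw {G : ℕ → ℕ → Bool} {x : ℕ → Bool} (h : PrimLimit G x) {z : ℕ → Bool} :
    InLim (aw G) z ↔ z = x := by
  constructor
  · intro hz
    funext n
    obtain ⟨a, ha⟩ := hz (n + 1)
    obtain ⟨b, hb⟩ := aw_lim h (seg z (n + 1))
    have h1 := ha (max a b) (le_max_left _ _)
    rw [hb _ (le_max_right _ _), decide_eq_true_eq, seg_length] at h1
    have h2 := congrArg (fun l => l[n]?) h1
    simp only [seg_getElem? _ (Nat.lt_succ_self n)] at h2
    exact Option.some.inj h2
  · rintro rfl k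
    obtain ⟨b, hb⟩ := aw_lim h (seg z k)
    refine ⟨b, fun s hs => ?_⟩
    rw [hb s hs, decide_eq_true_eq, seg_length]

end Pool.Agent.H59.Loc
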