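import Pool.Agent.H59.Loc.Limit

/-!
# Thin degrees below the halting problem
-/

set_option autoImplicit false

namespace Pool.Agent.H59.Loc

open Pool.Agent.H77.Thin Pool.Agent.H59.Hif Encodable
open Nat.Partrec (Code)

theorem seg_eq_iff {x y : ℕ → Bool} {n : ℕ} : seg x n = seg y n ↔ ∀ i < n, x i = y i := by
  constructor
  · intro h i hi
    have h1 := congrArg (fun l => l[i]?) h
    simp only [seg_getElem? _ hi] at h1
    exact Option.some.inj h1
  · intro h
    refine List.map_congr_left fun i hi => ?_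
    exact h i (List.mem_range.1 hi)

/-- A `Π⁰₁` class is thin if each `Π⁰₁` subclass contains a neighbourhood of each member. -/
theorem thin_of_local {P : Set (ℕ → Bool)} (hP : IsPi01 P)
    (h : ∀ Q : Set (ℕ → Bool), IsPi01 Q → Q ⊆ P → ∀ w ∈ Q, ∃ n, ∀ z ∈ P,
      seg z n = seg w n → z ∈ Q) : IsThin P := by
  refine ⟨hP, fun Q hQ hQP => ?_⟩
  choose n hn using h Q hQ hQP
  let V : Set (ℕ → Bool) := ⋃ w : Q, {z | Ini (seg w.1 (n w.1 w.2)) z}
  have hV : IsOpen V := isOpen_iUnion fun w => isOpen_ini _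
  have hQV : Q ⊆ V := fun w hw => Set.mem_iUnion.2 ⟨⟨w, hw⟩, ini_seg w _⟩
  obtain ⟨C, hC, hQC, hCV⟩ := exists_clopen_of_closed_subset_open (isClosed_pi01 hQ) hV hQV
  refine ⟨C, hC, ?_⟩
  ext z
  constructor
  · intro hz
    exact ⟨hQP hz, hQC hz⟩
  · rintro ⟨hz, hzC⟩
    obtain ⟨w, hw⟩ := Set.mem_iUnion.1 (hCV hzC)
    refine hn w.1 w.2 z hz ?_
    have h1 : seg z (seg w.1 (n w.1 w.2)).length = seg w.1 (n w.1 w.2) := hw
    rwa [seg_length] at h1

theorem isPi01_inter {P Q : Set (ℕ → Bool)} (hP : IsPi01 P) (hQ : IsPi01 Q) :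
    IsPi01 (P ∩ Q) := by
  obtain ⟨c, rfl⟩ := exists_tree hP
  obtain ⟨d, rfl⟩ := exists_tree hQ
  have h1 : {x : ℕ → Bool | ∀ n, tree c (seg x n) = true} ∩
      {x : ℕ → Bool | ∀ n, tree d (seg x n) = true} =
      {x : ℕ → Bool | ∀ n, (tree c (seg x n) && tree d (seg x n)) = true} := by
    ext x
    simp only [Set.mem_inter_iff, Set.mem_ofPred_eq, Bool.and_eq_true, forall_and]
  rw [h1]
  exact isPi01_of_prim (Primrec.and.comp (prim_tree c) (prim_tree d))

/-- Members of thin classes are generic. -/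
theorem generic_of_thin {P : Set (ℕ → Bool)} (hP : IsThin P) {y : ℕ → Bool} (hy : y ∈ P) :
    GenericIn P y := by
  refine ⟨hy, fun Q hQ hyQ => ?_⟩
  obtain ⟨σ, hσ, h⟩ := nbhd hP (isPi01_inter hP.1 hQ) Set.inter_subset_left ⟨hy, hyQ⟩
  refine ⟨σ.length, fun z hz hzn => (h z hz ?_).2⟩
  have h1 : seg y σ.length = σ := hσ
  exact hzn.trans h1

/-- The hit functional maps a class in which all members in the limit are generic onto a thin
class. -/
theorem thin_hit {W : List Bool → ℕ → Bool} (hW : Primrec₂ W) (hc : Conv W)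
    {P : Set (ℕ → Bool)} (hP : IsPi01 P) (hg : ∀ z ∈ P, InLim W z → GenericIn P z) :
    IsThin (pt (fn W) '' P) := by
  obtain ⟨c, hPc⟩ := exists_tree hP
  have hPT : P = paths (tree c) := hPc
  have hv := isFun_fn hW
  have htot : Total (fn W) (paths (tree c)) := total_fn _
  refine thin_of_local ?_ ?_
  · rw [hPT]
    exact isPi01_image (prim_tree c) (tree_closed c) hv htot
  · rintro Q hQ hQP w hw
    obtain ⟨h, hh, rfl⟩ := hQP hw
    by_cases hl : InLim W h
    · have h1 := isPi01_preimage (prim_tree c) hv htot hQ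
      obtain ⟨n, hn⟩ := (hg h hh hl).2 _ h1 ⟨hPT ▸ hh, hw⟩
      obtain ⟨N, hN⟩ := near hW hl n
      refine ⟨N, ?_⟩
      rintro _ ⟨h', hh', rfl⟩ hag
      exact (hn h' hh' (hN h' (seg_eq_iff.1 hag))).2
    · obtain ⟨N, hN⟩ := isolated hW hc hl
      refine ⟨N, ?_⟩
      rintro _ ⟨h', hh', rfl⟩ hag
      rw [hN h' (seg_eq_iff.1 hag)]
      exact hw

/-- A limit computable point generic in some class has the degree of a member of a thin class all
of whose other members are isolated. -/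
theorem exists_rank_one {P : Set (ℕ → Bool)} (hP : IsPi01 P) {y : ℕ → Bool}
    (hy : GenericIn P y) (hlim : LimitComputable y) :
    ∃ R, IsThin R ∧ ∃ u ∈ R, TuringEquivalent (chr u) (chr y) ∧
      ∀ z ∈ R, z ≠ u → ∃ n, ∀ w ∈ R, seg w n = seg z n → w = z := by
  obtain ⟨G, hG⟩ := exists_primLimit hlim
  have hW := prim_aw hG.1
  refine ⟨pt (fn (aw G)) '' P, thin_hit hW (conv_aw hG) hP ?_, pt (fn (aw G)) y,
    ⟨y, hy.1, rfl⟩, equiv_pt hW ((inLim_aw hG).2 rfl), ?_⟩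
  · intro z _ hz
    rw [(inLim_aw hG).1 hz]
    exact hy
  · rintro _ ⟨h, hh, rfl⟩ hne
    have hl : ¬ InLim (aw G) h := fun hcon => hne (by rw [(inLim_aw hG).1 hcon])
    obtain ⟨N, hN⟩ := isolated hW (conv_aw hG) hl
    refine ⟨N, ?_⟩
    rintro _ ⟨h', hh', rfl⟩ hag
    exact hN h' (seg_eq_iff.1 hag)

theorem main {x : ℕ → Bool} (hx : TuringReducible (chr x) (chr zeroJump)) :
    List.TFAE [
      ∃ P, IsThin P ∧ ∃ y ∈ P, TuringEquivalent (chr y) (chr x),
      ∃ P, IsPi01 P ∧ ∃ y, GenericIn P y ∧ TuringEquivalent (chr y) (chr x),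
      ∃ P, IsThin P ∧ ∃ y ∈ P, TuringEquivalent (chr y) (chr x) ∧
        ∀ z ∈ P, z ≠ y → ∃ n, ∀ w ∈ P, seg w n = seg z n → w = z] := by
  tfae_have 1 → 2 := by
    rintro ⟨P, hP, y, hy, he⟩
    exact ⟨P, hP.1, y, generic_of_thin hP hy, he⟩
  tfae_have 2 → 3 := by
    rintro ⟨P, hP, y, hy, he⟩
    obtain ⟨R, hR, u, hu, hue, hiso⟩ := exists_rank_one hP hy
      (limit_of_le limit_zeroJump (he.1.trans hx))
    exact ⟨R, hR, u, hu, ⟨hue.1.trans he.1, he.2.trans hue.2⟩, hiso⟩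
  tfae_have 3 → 1 := by
    rintro ⟨P, hP, y, hy, he, -⟩
    exact ⟨P, hP, y, hy, he⟩
  tfae_finish

end Pool.Agent.H59.Loc
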