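import Pool.Agent.H59.Loc.All
import Pool.Agent.H59.Hif.Search
import Pool.Agent.H59.Hif.Theta

/-!
# One universal class

The class `UU` consists of `0^ω` and all `0^e 1 y` with `y` in the `e`-th `Π⁰₁` class. Points
generic in some `Π⁰₁` class have the degree of points generic in `UU`.
-/

set_option autoImplicit false

namespace Pool.Agent.H59.Loc

open Pool.Agent.H77.Thin Pool.Agent.H59.Hif Encodable
open Nat.Partrec (Code)

/-- The tree of the universal class. -/
def ut (σ : List Bool) : Bool :=
  tree (Denumerable.ofNat Code (σ.findIdx id)) (σ.drop (σ.findIdx id + 1))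

theorem prim_ut : Primrec ut := by
  have h1 : Primrec fun σ : List Bool => σ.findIdx id :=
    Primrec.list_findIdx (f := fun σ : List Bool => σ) (p := fun _ b => id b)
      Primrec.id Primrec.snd
  exact prim_tree2.comp (Primrec.pair ((Primrec.ofNat Code).comp h1)
    (Primrec.list_drop.comp (Primrec.succ.comp h1) Primrec.id))

/-- The universal class. -/
def UU : Set (ℕ → Bool) := {x | ∀ n, ut (seg x n) = true}

theorem pi_UU : IsPi01 UU := isPi01_of_prim prim_ut

/-- The point `0^e 1 y`. -/
def put (e : ℕ) (y : ℕ → Bool) (n : ℕ) : Bool :=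
  if n < e then false else if n = e then true else y (n - (e + 1))

theorem put_lt {e n : ℕ} (y : ℕ → Bool) (h : n < e) : put e y n = false := by
  simp [put, h]

theorem put_self (e : ℕ) (y : ℕ → Bool) : put e y e = true := by
  simp [put]

theorem put_add (e : ℕ) (y : ℕ → Bool) (n : ℕ) : put e y (n + (e + 1)) = y n := by
  have h1 : ¬ n + (e + 1) < e := by omega
  have h2 : n + (e + 1) ≠ e := by omega
  simp [put, h1, h2]

theorem seg_put_le {e k : ℕ} (y : ℕ → Bool) (h : k ≤ e) :
    seg (put e y) k = List.replicate k false := by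
  rw [List.eq_replicate_iff]
  refine ⟨seg_length _ _, fun b hb => ?_⟩
  obtain ⟨i, hi, rfl⟩ := List.mem_map.1 hb
  rw [List.mem_range] at hi
  exact put_lt y (by omega)

theorem seg_put_add (e : ℕ) (y : ℕ → Bool) (n : ℕ) :
    seg (put e y) (n + (e + 1)) = List.replicate e false ++ true :: seg y n := by
  induction n with
  | zero =>
    rw [zero_add, seg_succ, seg_put_le y le_rfl, put_self]
    rfl
  | succ n ih =>
    rw [show n + 1 + (e + 1) = n + (e + 1) + 1 by omega, seg_succ, ih, put_add, seg_succ]
    simp

theorem findIdx_put (e : ℕ) (l : List Bool) :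
    (List.replicate e false ++ true :: l).findIdx id = e := by
  induction e with
  | zero =>
    rw [List.replicate_zero, List.nil_append, List.findIdx_cons]
    rfl
  | succ e ih =>
    rw [List.replicate_succ, List.cons_append, List.findIdx_cons, ih]
    rfl

theorem findIdx_rep (k : ℕ) : (List.replicate k false).findIdx id = k := by
  induction k with
  | zero => simp
  | succ k ih =>
    rw [List.replicate_succ, List.findIdx_cons, ih]
    rfl

theorem drop_put (e : ℕ) (l : List Bool) :
    (List.replicate e false ++ true :: l).drop (e + 1) = l := by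
  have h1 : (List.replicate e false ++ [true]).length = e + 1 := by simp
  have h2 : List.replicate e false ++ true :: l = (List.replicate e false ++ [true]) ++ l := by
    simp
  rw [h2, List.drop_left' h1]

theorem tree_nil (c : Code) : tree c [] = true := by
  rw [tree_iff]
  intro j _
  simp [Code.evaln]

theorem ut_add (e : ℕ) (y : ℕ → Bool) (n : ℕ) :
    ut (seg (put e y) (n + (e + 1))) = tree (Denumerable.ofNat Code e) (seg y n) := by
  rw [seg_put_add, ut, findIdx_put, drop_put]

theorem ut_le {e k : ℕ} (y : ℕ → Bool) (h : k ≤ e) : ut (seg (put e y) k) = true := by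
  rw [seg_put_le y h, ut, findIdx_rep, List.drop_eq_nil_of_le (by simp)]
  exact tree_nil _

theorem put_mem {e : ℕ} {y : ℕ → Bool}
    (hy : ∀ n, tree (Denumerable.ofNat Code e) (seg y n) = true) : put e y ∈ UU := by
  intro k
  rcases Nat.lt_or_ge e k with h | h
  · obtain ⟨n, rfl⟩ : ∃ n, k = n + (e + 1) := ⟨k - (e + 1), by omega⟩
    rw [ut_add]
    exact hy n
  · exact ut_le y h

theorem eq_put {e : ℕ} {y w : ℕ → Bool} (h : seg w (e + 1) = seg (put e y) (e + 1)) :
    w = put e fun n => w (n + (e + 1)) := by
  funext n
  rcases Nat.lt_or_ge e n with h1 | h1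
  · obtain ⟨m, rfl⟩ : ∃ m, n = m + (e + 1) := ⟨n - (e + 1), by omega⟩
    rw [put_add]
  · rw [seg_eq_iff.1 h n (by omega)]
    rcases h1.eq_or_lt with rfl | h2
    · rw [put_self, put_self]
    · rw [put_lt _ h2, put_lt _ h2]

theorem shift_mem {e : ℕ} {z : ℕ → Bool} (h : put e z ∈ UU) (n : ℕ) :
    tree (Denumerable.ofNat Code e) (seg z n) = true := by
  rw [← ut_add]
  exact h _

/-- The preimage of a `Π⁰₁` class under `put e` is a `Π⁰₁` class. -/
theorem pi_preimage {Q : Set (ℕ → Bool)} (hQ : IsPi01 Q) (e : ℕ) : IsPi01 {z | put e z ∈ Q} := by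
  obtain ⟨d, rfl⟩ := exists_tree hQ
  have h1 : {z | put e z ∈ {x : ℕ → Bool | ∀ n, tree d (seg x n) = true}} =
      {z : ℕ → Bool | ∀ n, (fun σ => tree d (List.replicate e false ++ true :: σ)) (seg z n) =
        true} := by
    ext z
    simp only [Set.mem_ofPred_eq]
    constructor
    · intro h n
      rw [← seg_put_add]
      exact h _
    · intro h n
      refine tree_closed d _ (seg (put e z) (n + (e + 1))) (seg_prefix _ (by omega)) ?_
      rw [seg_put_add]
      exact h n
  rw [h1]
  refine isPi01_of_prim (p := fun σ => tree d (List.replicate e false ++ true :: σ)) ?_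
  exact (prim_tree d).comp (Primrec.list_append.comp (Primrec.const _)
    (Primrec.list_cons.comp (Primrec.const _) Primrec.id))

/-- `y` generic in the `e`-th class implies `0^e 1 y` generic in `UU`. -/
theorem generic_put {e : ℕ} {y : ℕ → Bool}
    (hy : GenericIn {x : ℕ → Bool | ∀ n, tree (Denumerable.ofNat Code e) (seg x n) = true} y) :
    GenericIn UU (put e y) := by
  refine ⟨put_mem hy.1, fun Q hQ hyQ => ?_⟩
  obtain ⟨n, hn⟩ := hy.2 _ (pi_preimage hQ e) hyQ
  refine ⟨n + (e + 1), fun w hw hseg => ?_⟩
  have h1 : seg w (e + 1) = seg (put e y) (e + 1) :=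
    seg_eq_iff.2 fun i hi => seg_eq_iff.1 hseg i (by omega)
  have h2 := eq_put h1
  rw [h2] at hw
  have h3 := hn _ (shift_mem hw) (seg_eq_iff.2 fun i hi => by
    have h4 := seg_eq_iff.1 hseg (i + (e + 1)) (by omega)
    rw [put_add] at h4
    exact h4)
  rw [h2]
  exact h3

theorem equiv_put (e : ℕ) (y : ℕ → Bool) : TuringEquivalent (chr (put e y)) (chr y) := by
  constructor
  · have hF : Primrec fun a : ℕ => if a.unpair.1 < e then 0 else
        if a.unpair.1 = e then 1 else a.unpair.2 := by
      have hu : Primrec fun a : ℕ => a.unpair.1 := Primrec.fst.comp Primrec.unpair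
      exact Primrec.ite (Primrec.nat_lt.comp hu (Primrec.const e)) (Primrec.const 0)
        (Primrec.ite (Primrec.eq.comp hu (Primrec.const e)) (Primrec.const 1)
          (Primrec.snd.comp Primrec.unpair))
    have h1 : TRec y fun n => (y (n - (e + 1))).toNat :=
      TRec.oracle.comp (TRec.of_computable
        (Primrec.nat_sub.comp Primrec.id (Primrec.const (e + 1))).to_comp)
    have h2 := (TRec.of_computable (y := y) hF.to_comp).comp
      ((TRec.of_computable (y := y) Computable.id).pair h1)
    have h3 : (fun n => (put e y n).toNat) = fun n =>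
        (fun a : ℕ => if a.unpair.1 < e then 0 else if a.unpair.1 = e then 1 else a.unpair.2)
          (Nat.pair (id n) (y (n - (e + 1))).toNat) := by
      funext n
      simp only [Nat.unpair_pair, put, id]
      split_ifs <;> rfl
    exact (h3 ▸ h2 : TRec y fun n => (put e y n).toNat).turing
  · have h1 : TRec (put e y) fun n => (put e y (n + (e + 1))).toNat :=
      TRec.oracle.comp (TRec.of_computable
        (Primrec.nat_add.comp Primrec.id (Primrec.const (e + 1))).to_comp)
    simp only [put_add] at h1
    exact h1.turing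

/-- The image of a `Π⁰₁(0')` class under `put e` is a `Π⁰₁(0')` class. -/
theorem jump_image {C : Set (ℕ → Bool)} (hC : IsPi01Jump C) (e : ℕ) :
    IsPi01Jump (put e '' C) := by
  obtain ⟨v, hv, rfl⟩ := hC
  let b : List Bool := List.replicate e false ++ [true]
  let g : ℕ → ℕ := fun n => encode (((decode n : Option (List Bool)).getD []).drop (e + 1))
  let q : ℕ → Bool := fun n => decide (((decode n : Option (List Bool)).getD []).take (e + 1) =
    b.take ((decode n : Option (List Bool)).getD []).length)
  have hd : Primrec fun n : ℕ => (decode n : Option (List Bool)).getD [] :=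
    Primrec.option_getD.comp Primrec.decode (Primrec.const [])
  have hg : Primrec g :=
    Primrec.encode.comp (Primrec.list_drop.comp (Primrec.const (e + 1)) hd)
  have hq : Primrec q := by
    refine prim_beq (prim_take (Primrec.const (e + 1)) hd) ?_
    exact prim_take (Primrec.list_length.comp hd) (Primrec.const b)
  refine ⟨fun n => q n && v (g n), ?_, ?_⟩
  · have h1 : TRec zeroJump fun n => (v (g n)).toNat :=
      (TRec.of_turing hv).comp (TRec.of_computable hg.to_comp)
    have hF : Primrec fun a : ℕ => if q a.unpair.1 = true then a.unpair.2 else 0 :=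
      Primrec.ite (Primrec.eq.comp (hq.comp (Primrec.fst.comp Primrec.unpair))
        (Primrec.const true)) (Primrec.snd.comp Primrec.unpair) (Primrec.const 0)
    have h2 := (TRec.of_computable (y := zeroJump) hF.to_comp).comp
      ((TRec.of_computable (y := zeroJump) Computable.id).pair h1)
    have h3 : (fun n => (q n && v (g n)).toNat) = fun n =>
        (fun a : ℕ => if q a.unpair.1 = true then a.unpair.2 else 0)
          (Nat.pair (id n) (v (g n)).toNat) := by
      funext n
      simp only [Nat.unpair_pair, id]
      cases q n <;> simp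
    exact (h3 ▸ h2 : TRec zeroJump fun n => (q n && v (g n)).toNat).turing
  · have hb : ∀ z : ℕ → Bool, seg (put e z) (e + 1) = b := by
      intro z
      have h1 := seg_put_add e z 0
      rw [zero_add] at h1
      exact h1
    ext w
    simp only [Set.mem_image, Set.mem_ofPred_eq, Bool.and_eq_true, q, g, encodek,
      Option.getD_some, decide_eq_true_eq, seg_length]
    constructor
    · rintro ⟨z, hz, rfl⟩ n
      rcases Nat.lt_or_ge n (e + 1) with h | h
      · refine ⟨?_, ?_⟩
        · rw [List.take_of_length_le (by rw [seg_length]; omega), ← hb z, seg_take _ (by omega)]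
        · rw [List.drop_eq_nil_of_le (by rw [seg_length]; omega)]
          exact hz 0
      · obtain ⟨m, rfl⟩ : ∃ m, n = m + (e + 1) := ⟨n - (e + 1), by omega⟩
        refine ⟨?_, ?_⟩
        · rw [seg_take _ (by omega), hb z, List.take_of_length_le (by simp [b])]
        · rw [seg_put_add, drop_put]
          exact hz m
    · intro h
      have h1 := (h (e + 1)).1
      rw [List.take_of_length_le (by rw [seg_length]), List.take_of_length_le (by simp [b])] at h1
      have h2 := eq_put (y := w) (h1.trans (hb w).symm)
      refine ⟨fun n => w (n + (e + 1)), fun n => ?_, h2.symm⟩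
      have h3 := (h (n + (e + 1))).2
      rw [h2, seg_put_add, drop_put] at h3
      exact h3

/-- The degrees of members of thin classes, by points generic in one class. -/
theorem univ_main : ∃ U : Set (ℕ → Bool), IsPi01 U ∧ ∀ x : ℕ → Bool, List.TFAE [
    ∃ P, IsThin P ∧ ∃ y ∈ P, TuringEquivalent (chr y) (chr x),
    ∃ P C, IsPi01 P ∧ IsPi01Jump C ∧ (∀ z ∈ C, GenericIn P z) ∧
      ∃ y ∈ C, TuringEquivalent (chr y) (chr x),
    ∃ C, IsPi01Jump C ∧ (∀ z ∈ C, GenericIn U z) ∧
      ∃ y ∈ C, TuringEquivalent (chr y) (chr x)] := by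
  refine ⟨UU, pi_UU, fun x => ?_⟩
  tfae_have 1 ↔ 2 := all_iff x
  tfae_have 2 → 3 := by
    rintro ⟨P, C, hP, hC, hg, y, hy, he⟩
    obtain ⟨c, rfl⟩ := exists_tree hP
    refine ⟨put (encode c) '' C, jump_image hC _, ?_, put (encode c) y, ⟨y, hy, rfl⟩,
      (equiv_put _ y).1.trans he.1, he.2.trans (equiv_put _ y).2⟩
    rintro _ ⟨z, hz, rfl⟩
    refine generic_put ?_
    rw [Denumerable.ofNat_encode]
    exact hg z hz
  tfae_have 3 → 2 := by
    rintro ⟨C, hC, hg, y, hy, he⟩
    exact ⟨UU, C, pi_UU, hC, hg, y, hy, he⟩
  tfae_finish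

end Pool.Agent.H59.Loc
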